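import Pool.Agent.H37.CNM.Stmts

/-!
# Board cnm (MP_b57703), row APE

The pairing of `G / C(A)` and `A / (A ∩ Z(G))` when all the commutators `[g, a]` lie in a subgroup of order `p`.
-/

set_option autoImplicit false

namespace Pool.CND

open Finset
open scoped Matrix

/-- a normal subgroup of order `p` of a `p`-group is central -/
theorem ape_central {G : Type} [Group G] [Finite G] {p : ℕ} [Fact p.Prime] (C : Subgroup G)
    [C.Normal] (hG : ∃ n : ℕ, Nat.card G = p ^ n) (hC : Nat.card C = p) :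
    ∀ c ∈ C, ∀ g : G, g * c * g⁻¹ = c := by
  have hp : p.Prime := Fact.out
  intro c hc g
  have : IsCyclic C := isCyclic_of_prime_card hC
  have h1 : Nat.card (MulAut C) = p - 1 := by
    rw [IsCyclic.card_mulAut, hC, Nat.totient_prime hp]
  have h2 : orderOf (MulAut.conjNormal g : MulAut C) ∣ p - 1 := by
    rw [← h1]
    exact orderOf_dvd_natCard _
  obtain ⟨n, hn⟩ := hG
  have h3 : orderOf (MulAut.conjNormal g : MulAut C) ∣ p ^ n := by
    rw [← hn]
    exact (orderOf_map_dvd (MulAut.conjNormal : G →* MulAut C) g).trans (orderOf_dvd_natCard g)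
  have h4 : Nat.Coprime (p ^ n) (p - 1) := by
    refine Nat.Coprime.pow_left n ?_
    rw [Nat.Prime.coprime_iff_not_dvd hp]
    intro h5
    have := Nat.le_of_dvd (by have := hp.two_le; omega) h5
    have := hp.two_le
    omega
  have h5 : orderOf (MulAut.conjNormal g : MulAut C) = 1 :=
    Nat.dvd_one.1 (h4 ▸ Nat.dvd_gcd h3 h2)
  have h6 : (MulAut.conjNormal g : MulAut C) = 1 := orderOf_eq_one_iff.1 h5
  have h7 : ((MulAut.conjNormal g : MulAut C) ⟨c, hc⟩ : G) = g * c * g⁻¹ := by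
    rw [MulAut.conjNormal_apply]
  rw [← h7, h6]
  rfl

/-- a family of functionals closed under addition: coordinates and dual vectors -/
theorem ape_lin {G V : Type} [Group G] [Finite G] [AddCommGroup V] [Finite V] {p : ℕ}
    [Fact p.Prime] (hV : ∀ x : V, p • x = 0) (B₀ : G → V →+ ZMod p)
    (hB₀ : ∀ g h, B₀ (g * h) = B₀ g + B₀ h) :
    ∃ (n : ℕ) (Λ : (Fin n → ZMod p) →+ V) (β : G → Matrix (Fin 1) (Fin n) (ZMod p)),
      (∀ K : Subgroup G, (∀ g, g ∈ K ↔ B₀ g = 0) → K.index = p ^ n) ∧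
      (∀ g h : G, β (g * h) = β g + β h) ∧ Function.Surjective β ∧
      ∀ g a, B₀ g (Λ a) = (β g *ᵥ a) 0 := by
  let _ : Module (ZMod p) V := AddCommGroup.zmodModule (n := p) hV
  let B : G → Module.Dual (ZMod p) V := fun g => (B₀ g).toZModLinearMap p
  have hBapp : ∀ (g : G) (x : V), B g x = B₀ g x := fun g x => rfl
  have hB0 : ∀ g, B g = 0 ↔ B₀ g = 0 := by
    intro g
    constructor
    · intro h
      refine AddMonoidHom.ext fun x => ?_
      rw [← hBapp, h]
      rfl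
    · intro h
      refine LinearMap.ext fun x => ?_
      rw [hBapp, h]
      rfl
  have hBmul : ∀ g h : G, B (g * h) = B g + B h := by
    intro g h
    refine LinearMap.ext fun x => ?_
    rw [LinearMap.add_apply, hBapp, hBapp, hBapp, hB₀]
    rfl
  have hB1 : B 1 = 0 := by
    have h1 := hBmul 1 1
    rw [one_mul] at h1
    exact (add_eq_left.1 h1.symm)
  have hBpow : ∀ (g : G) (m : ℕ), B (g ^ m) = m • B g := by
    intro g m
    induction m with
    | zero => rw [pow_zero, hB1, zero_smul]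
    | succ m ih => rw [pow_succ, hBmul, ih, succ_nsmul]
  let U : Submodule (ZMod p) (Module.Dual (ZMod p) V) :=
    { carrier := Set.range B
      add_mem' := by
        rintro _ _ ⟨g, rfl⟩ ⟨h, rfl⟩
        exact ⟨g * h, hBmul g h⟩
      zero_mem' := ⟨1, hB1⟩
      smul_mem' := by
        rintro c _ ⟨g, rfl⟩
        refine ⟨g ^ c.val, ?_⟩
        rw [hBpow, ← Nat.cast_smul_eq_nsmul (ZMod p), ZMod.natCast_zmod_val] }
  have hBU : ∀ g, B g ∈ U := fun g => ⟨g, rfl⟩
  let F : G →* Multiplicative (Module.Dual (ZMod p) V) :=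
    { toFun := fun g => Multiplicative.ofAdd (B g)
      map_one' := by rw [hB1]; rfl
      map_mul' := fun g h => by rw [hBmul]; rfl }
  obtain ⟨n, hn⟩ : ∃ n, Module.finrank (ZMod p) U = n := ⟨_, rfl⟩
  let b : Module.Basis (Fin n) (ZMod p) U := Module.finBasisOfFinrankEq (ZMod p) U hn
  have hv : ∀ j : Fin n, ∃ v : V, ∀ u : U, (u : Module.Dual (ZMod p) V) v = b.repr u j := by
    intro j
    obtain ⟨f, hf⟩ := Subspace.dualRestrict_surjective (W := U) (b.coord j)
    refine ⟨(Module.evalEquiv (ZMod p) V).symm f, fun u => ?_⟩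
    have h1 : f u = b.coord j u := by rw [← hf]; rfl
    rw [← Module.Basis.coord_apply, ← h1]
    conv_rhs => rw [← (Module.evalEquiv (ZMod p) V).apply_symm_apply f]
    rfl
  choose v hv using hv
  refine ⟨n, ⟨⟨fun a => ∑ j, a j • v j, ?_⟩, fun a a' => ?_⟩,
    fun g => Matrix.of fun _ j => b.repr ⟨B g, hBU g⟩ j, ?_, ?_, ?_, ?_⟩
  · exact Finset.sum_eq_zero fun j _ => by rw [Pi.zero_apply, zero_smul]
  · change ∑ j, (a + a') j • v j = ∑ j, a j • v j + ∑ j, a' j • v j
    rw [← Finset.sum_add_distrib]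
    exact Finset.sum_congr rfl fun j _ => by rw [Pi.add_apply, add_smul]
  · intro K hK
    have hker : F.ker = K := by
      ext g
      rw [MonoidHom.mem_ker, hK, ← hB0]
      exact Iff.rfl
    rw [← hker, Subgroup.index_ker]
    have h1 : Nat.card F.range = Nat.card U :=
      Nat.card_congr (Equiv.subtypeEquiv Multiplicative.toAdd fun f => Iff.rfl)
    rw [h1, Module.natCard_eq_pow_finrank (K := ZMod p) (V := U), Nat.card_zmod, hn]
  · intro g h
    ext i j
    simp only [Matrix.of_apply, Matrix.add_apply]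
    have h1 : (⟨B (g * h), hBU (g * h)⟩ : U) = ⟨B g, hBU g⟩ + ⟨B h, hBU h⟩ :=
      Subtype.ext (hBmul g h)
    rw [h1, map_add, Finsupp.add_apply]
  · intro M
    obtain ⟨u, hu⟩ : ∃ u : U, ∀ j, b.repr u j = M 0 j :=
      ⟨b.equivFun.symm (fun j => M 0 j), fun j => by
        have := b.equivFun.apply_symm_apply (fun j => M 0 j)
        exact congrFun this j⟩
    obtain ⟨g, hg⟩ : ∃ g, B g = (u : Module.Dual (ZMod p) V) := u.2
    refine ⟨g, ?_⟩
    ext i j
    change b.repr ⟨B g, hBU g⟩ j = M i j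
    rw [Subsingleton.elim i 0, ← hu j]
    congr 2
    exact Subtype.ext hg
  · intro g a
    change B g (∑ j, a j • v j) = _
    rw [map_sum, Matrix.mulVec, dotProduct]
    refine Finset.sum_congr rfl fun j _ => ?_
    rw [map_smul, smul_eq_mul, mul_comm]
    change _ = b.repr ⟨B g, hBU g⟩ j * a j
    rw [← hv j]

theorem ape_thm : S_APE := by
  intro p G _ _ _ A C hG hA hEA hC hcom hnz
  have hp : p.Prime := Fact.out
  -- `C ≤ A`
  have hgaA : ∀ g : G, ∀ a ∈ A, g * a * g⁻¹ * a⁻¹ ∈ A := fun g a ha =>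
    A.mul_mem (hA.conj_mem a ha g) (A.inv_mem ha)
  obtain ⟨a₀, ha₀, hna₀⟩ := SetLike.not_le_iff_exists.1 hnz
  obtain ⟨g₀, hg₀⟩ : ∃ g₀ : G, g₀ * a₀ * g₀⁻¹ * a₀⁻¹ ≠ 1 := by
    by_contra h
    push Not at h
    exact hna₀ (Subgroup.mem_center_iff.2 fun g => by
      have h1 := h g
      rw [mul_inv_eq_one, mul_inv_eq_iff_eq_mul] at h1
      exact h1)
  have hCA : C ≤ A := by
    have h1 : Nat.card (A ⊓ C : Subgroup G) ∣ p := by
      rw [← hC]
      exact Subgroup.card_dvd_of_le inf_le_right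
    rcases (Nat.dvd_prime hp).1 h1 with h2 | h2
    · have h3 : (A ⊓ C : Subgroup G) = ⊥ := Subgroup.eq_bot_of_card_eq _ h2
      have h4 : g₀ * a₀ * g₀⁻¹ * a₀⁻¹ ∈ (A ⊓ C : Subgroup G) := ⟨hgaA g₀ a₀ ha₀, hcom g₀ a₀ ha₀⟩
      rw [h3] at h4
      exact absurd (Subgroup.mem_bot.1 h4) hg₀
    · have h3 : (A ⊓ C : Subgroup G) = C :=
        Subgroup.eq_of_le_of_card_ge inf_le_right (by rw [h2, hC])
      exact inf_eq_right.1 h3
  have hCn : C.Normal := ⟨fun c hc g => by
    have h1 := C.mul_mem (hcom g c (hCA hc)) hc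
    rwa [inv_mul_cancel_right] at h1⟩
  have hCz : ∀ c ∈ C, ∀ g : G, g * c * g⁻¹ = c := ape_central C hG hC
  have hCz' : ∀ c ∈ C, ∀ g : G, g * c = c * g := fun c hc g => by
    have h1 := hCz c hc g
    rwa [mul_inv_eq_iff_eq_mul] at h1
  obtain ⟨ψ⟩ : Nonempty (C ≃* Multiplicative (ZMod p)) :=
    ⟨mulEquivOfPrimeCardEq hC (by rw [Nat.card_congr Multiplicative.toAdd, Nat.card_zmod])⟩
  -- the commutator is multiplicative in both variables
  have hmul2 : ∀ g : G, ∀ a ∈ A, ∀ b ∈ A, g * (a * b) * g⁻¹ * (a * b)⁻¹ =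
      (g * a * g⁻¹ * a⁻¹) * (g * b * g⁻¹ * b⁻¹) := by
    intro g a ha b hb
    have h1 := hCz' _ (hcom g b hb) a⁻¹
    calc g * (a * b) * g⁻¹ * (a * b)⁻¹ = g * a * g⁻¹ * (g * b * g⁻¹ * b⁻¹ * a⁻¹) := by group
      _ = g * a * g⁻¹ * (a⁻¹ * (g * b * g⁻¹ * b⁻¹)) := by rw [h1]
      _ = _ := by group
  have hmul1 : ∀ g h : G, ∀ a ∈ A, (g * h) * a * (g * h)⁻¹ * a⁻¹ =
      (g * a * g⁻¹ * a⁻¹) * (h * a * h⁻¹ * a⁻¹) := by
    intro g h a ha
    have h1 := hCz _ (hcom h a ha) g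
    have h2 := hCz' _ (hcom h a ha) (g * a * g⁻¹ * a⁻¹)
    calc (g * h) * a * (g * h)⁻¹ * a⁻¹
        = (g * (h * a * h⁻¹ * a⁻¹) * g⁻¹) * (g * a * g⁻¹ * a⁻¹) := by group
      _ = (h * a * h⁻¹ * a⁻¹) * (g * a * g⁻¹ * a⁻¹) := by rw [h1]
      _ = _ := h2.symm
  -- the pairing
  let _ : CommGroup A := { (inferInstance : Group A) with
    mul_comm := fun a b => Subtype.ext (hEA.2 a a.2 b b.2) }
  have hV : ∀ x : Additive A, p • x = 0 := fun x => by
    have h1 : ((x.toMul : A) : G) ^ p = 1 := hEA.1 _ x.toMul.2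
    have h2 : (x.toMul : A) ^ p = 1 := Subtype.ext (by simpa using h1)
    exact congrArg Additive.ofMul h2
  obtain ⟨cm, hcm⟩ : ∃ cm : G → A → C, ∀ g a, ((cm g a : C) : G) = g * a * g⁻¹ * (a : G)⁻¹ :=
    ⟨fun g a => ⟨_, hcom g a a.2⟩, fun _ _ => rfl⟩
  have hcm2 : ∀ g a b, cm g (a * b) = cm g a * cm g b := fun g a b => Subtype.ext (by
    rw [Subgroup.coe_mul, hcm, hcm, hcm, Subgroup.coe_mul]
    exact hmul2 g a a.2 b b.2)
  have hcm1 : ∀ g h a, cm (g * h) a = cm g a * cm h a := fun g h a => Subtype.ext (by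
    rw [Subgroup.coe_mul, hcm, hcm, hcm]
    exact hmul1 g h a a.2)
  obtain ⟨B, hBapp⟩ : ∃ B : G → Additive A →+ ZMod p, ∀ g (x : Additive A),
      B g x = (ψ (cm g x.toMul)).toAdd := by
    refine ⟨fun g => AddMonoidHom.mk' (fun x => (ψ (cm g x.toMul)).toAdd) fun x y => ?_,
      fun g x => rfl⟩
    rw [toMul_add, hcm2, map_mul, toAdd_mul]
  have hBmul : ∀ g h : G, B (g * h) = B g + B h := by
    intro g h
    refine AddMonoidHom.ext fun x => ?_
    rw [AddMonoidHom.add_apply, hBapp, hBapp, hBapp, hcm1, map_mul, toAdd_mul]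
  obtain ⟨n, Λ, β, hidx, hβ, hβs, hβΛ⟩ := ape_lin hV B hBmul
  have hindex : (Subgroup.centralizer (A : Set G)).index = p ^ n := by
    refine hidx _ fun g => ?_
    rw [Subgroup.mem_centralizer_iff]
    constructor
    · intro h1
      refine AddMonoidHom.ext fun x => ?_
      have h3 : cm g x.toMul = 1 := by
        refine Subtype.ext ?_
        rw [hcm, ← h1 _ x.toMul.2]
        simp
      rw [hBapp, h3, map_one]
      rfl
    · intro h2 a ha
      have h3 : B g (Additive.ofMul (⟨a, ha⟩ : A)) = 0 := by rw [h2]; rfl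
      rw [hBapp] at h3
      have h4 : ψ (cm g ⟨a, ha⟩) = 1 := h3
      have h5 := (map_eq_one_iff ψ ψ.injective).1 h4
      have h6 : g * a * g⁻¹ * a⁻¹ = 1 := by
        rw [← hcm g ⟨a, ha⟩, h5]
        rfl
      rw [mul_inv_eq_one, mul_inv_eq_iff_eq_mul] at h6
      exact h6.symm
  have hn1 : 1 ≤ n := by
    rw [Nat.one_le_iff_ne_zero]
    rintro rfl
    rw [pow_zero, Subgroup.index_eq_one] at hindex
    refine hnz fun a ha => Subgroup.mem_center_iff.2 fun g => ?_
    have h1 : g ∈ Subgroup.centralizer (A : Set G) := by rw [hindex]; trivial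
    exact (Subgroup.mem_centralizer_iff.1 h1 a ha).symm
  obtain ⟨xx, hxx⟩ : ∃ xx : (Fin n → ZMod p) → A, ∀ a, xx a = (Λ a).toMul := ⟨_, fun _ => rfl⟩
  obtain ⟨yy, hyy⟩ : ∃ yy : (Fin 1 → ZMod p) → C, ∀ c, yy c = ψ.symm (Multiplicative.ofAdd (c 0)) :=
    ⟨_, fun _ => rfl⟩
  have hxadd : ∀ a a', xx (a + a') = xx a * xx a' := fun a a' => by
    rw [hxx, hxx, hxx, map_add, toMul_add]
  have hyadd : ∀ c c', yy (c + c') = yy c * yy c' := fun c c' => by
    rw [hyy, hyy, hyy, Pi.add_apply, ofAdd_add, map_mul]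
  have hcmx : ∀ g a, cm g (xx a) = yy (β g *ᵥ a) := by
    intro g a
    have h1 := hβΛ g a
    rw [hBapp, ← hxx] at h1
    rw [hyy, ← h1, ofAdd_toAdd, ψ.symm_apply_apply]
  have hconj : ∀ g a, g * (xx a : G) * g⁻¹ = (xx a : G) * (yy (β g *ᵥ a) : G) := by
    intro g a
    rw [hCz' _ (yy (β g *ᵥ a)).2 (xx a : G), ← hcmx, hcm]
    group
  refine ⟨n, fun a c => (xx a : G) * (yy c : G), β, hn1, hindex, ?_, ?_, hβ, hβs, ?_⟩
  · intro a a' c c'
    simp only [hxadd, hyadd, Subgroup.coe_mul]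
    have h3 := hCz' _ (yy c).2 (xx a' : G)
    rw [mul_assoc, mul_assoc, ← mul_assoc (xx a' : G), h3, mul_assoc]
  · intro a c h
    have h4 : (xx a : G) = ((yy c)⁻¹ : C) := eq_inv_of_mul_eq_one_left h
    have hx : ∀ g : G, (β g *ᵥ a) 0 = 0 := by
      intro g
      have h5 := hconj g a
      rw [h4, hCz _ ((yy c)⁻¹ : C).2 g, left_eq_mul] at h5
      have h6 : yy (β g *ᵥ a) = 1 := Subtype.ext h5
      rw [hyy] at h6
      exact (map_eq_one_iff ψ.symm ψ.symm.injective).1 h6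
    have ha : a = 0 := by
      funext i
      obtain ⟨g, hg⟩ := hβs (Matrix.of fun _ j => if j = i then 1 else 0)
      have h1 := hx g
      rw [hg, Matrix.mulVec, dotProduct] at h1
      simpa using h1
    refine ⟨ha, ?_⟩
    have h7 : (yy c : G) = 1 := by
      subst ha
      have h8 : xx 0 = 1 := by
        rw [hxx, map_zero]
        rfl
      change (xx 0 : G) * (yy c : G) = 1 at h
      rw [h8] at h
      simpa using h
    have h2 : yy c = 1 := Subtype.ext h7
    rw [hyy] at h2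
    have h3 := (map_eq_one_iff ψ.symm ψ.symm.injective).1 h2
    funext i
    rw [Subsingleton.elim i 0]
    exact h3
  · intro g a c
    simp only [hyadd, Subgroup.coe_mul]
    have h1 := hconj g a
    have h2 := hCz _ (yy c).2 g
    have h3 := hCz' _ (yy c).2 (yy (β g *ᵥ a) : G)
    calc g * ((xx a : G) * (yy c : G)) * g⁻¹ = (g * (xx a : G) * g⁻¹) * (g * (yy c : G) * g⁻¹) := by
          group
      _ = _ := by rw [h1, h2, mul_assoc, h3]

end Pool.CND
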